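import Pool.Agent.helper89.PU.Spec1

set_option autoImplicit false

namespace Pool.Agent.PV

open Matrix Polynomial Pool.Agent.GO Pool.Agent.AR Pool.Agent.RG Pool.Agent.HZ Pool.Agent.DS
  Pool.Agent.AX Pool.Agent.UM Pool.Agent.PU MeasureTheory NumberField

theorem LEV_ex {A m : Type} [CommRing A] [Fintype m] [DecidableEq m] {c : A} {X : Matrix m m A}
    (h : ∀ i j, c ∣ X i j) : ∃ Y : Matrix m m A, X = c • Y := by
  choose Y hY using h
  exact ⟨Matrix.of Y, by ext i j; simp [hY i j]⟩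

theorem LEV_pw {A m : Type} [CommRing A] [Fintype m] [DecidableEq m] {c : A} {X Y : Matrix m m A}
    (h : X = 1 + c • Y) (k : ℕ) : ∃ Z : Matrix m m A, X ^ k = 1 + c • Z := by
  induction k with
  | zero => exact ⟨0, by simp⟩
  | succ k ih =>
    obtain ⟨Z, hZ⟩ := ih
    refine ⟨Y + Z + c • (Z * Y), ?_⟩
    rw [pow_succ, hZ, h]
    simp only [Matrix.add_mul, Matrix.mul_add, Matrix.one_mul, Matrix.mul_one, Matrix.smul_mul,
      Matrix.mul_smul]
    module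

/-- the power `p` gains one level -/
theorem LEV_pow {p r : ℕ} [Fact p.Prime] (hr : 1 ≤ r) {m : Type} [Fintype m] [DecidableEq m]
    {X : Matrix m m ℤ_[p]} (h : ∀ i j, (p : ℤ_[p]) ^ r ∣ (X - 1) i j) :
    ∀ i j, (p : ℤ_[p]) ^ (r + 1) ∣ (X ^ p - 1) i j := by
  obtain ⟨Y, hY⟩ := LEV_ex h
  have hX : X = 1 + (p : ℤ_[p]) ^ r • Y := by rw [← hY]; abel
  have h1 : ∀ n : ℕ, ∃ Z : Matrix m m ℤ_[p],
      ∑ k ∈ Finset.range n, X ^ k = (n : ℤ_[p]) • (1 : Matrix m m ℤ_[p]) + (p : ℤ_[p]) ^ r • Z := by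
    intro n
    induction n with
    | zero => exact ⟨0, by simp⟩
    | succ n ih =>
      obtain ⟨Z, hZ⟩ := ih
      obtain ⟨W, hW⟩ := LEV_pw hX n
      refine ⟨Z + W, ?_⟩
      rw [Finset.sum_range_succ, hZ, hW]
      push_cast
      module
  obtain ⟨Z, hZ⟩ := h1 p
  obtain ⟨s, rfl⟩ : ∃ s, r = s + 1 := ⟨r - 1, by omega⟩
  have h2 : X ^ p - 1 = (p : ℤ_[p]) ^ (s + 1 + 1) • ((1 + (p : ℤ_[p]) ^ s • Z) * Y) := by
    rw [← geom_sum_mul X p, hZ, hY]
    simp only [Matrix.add_mul, Matrix.one_mul, Matrix.smul_mul, Matrix.mul_smul]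
    module
  intro i j
  rw [h2]
  exact ⟨((1 + (p : ℤ_[p]) ^ s • Z) * Y) i j, by simp⟩

theorem LEV_root {K : Type} [NormedField K] [IsUltrametricDist K] {α β : K} (h1 : ‖α + β‖ ≤ 1)
    (h2 : ‖α * β‖ ≤ 1) : ‖α‖ ≤ 1 := by
  by_contra h
  rw [not_le] at h
  have h3 : 1 < ‖β‖ := by
    by_contra h4
    rw [not_lt] at h4
    have h5 : ‖α‖ ≤ 1 := by
      have h6 : α = (α + β) - β := by ring
      rw [h6]
      exact nsub h1 h4
    linarith
  rw [norm_mul] at h2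
  nlinarith

/-- roots of monic integral polynomials -/
theorem LEV_int {K : Type} [NormedField K] [IsUltrametricDist K] {P : K[X]} (hm : P.Monic)
    (hc : ∀ k, ‖P.coeff k‖ ≤ 1) {x : K} (hx : P.eval x = 0) : ‖x‖ ≤ 1 := by
  by_contra h
  rw [not_le] at h
  rw [Polynomial.eval_eq_sum_range, Finset.sum_range_succ, hm.coeff_natDegree, one_mul] at hx
  have h1 : x ^ P.natDegree = -∑ k ∈ Finset.range P.natDegree, P.coeff k * x ^ k := by
    rw [eq_neg_iff_add_eq_zero, add_comm]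
    exact hx
  rcases Nat.eq_zero_or_pos P.natDegree with h0 | h0
  · rw [h0] at h1
    simp at h1
  · have h2 : ‖∑ k ∈ Finset.range P.natDegree, P.coeff k * x ^ k‖ ≤ ‖x‖ ^ (P.natDegree - 1) := by
      apply IsUltrametricDist.norm_sum_le_of_forall_le_of_nonneg (by positivity)
      intro k hk
      rw [Finset.mem_range] at hk
      rw [norm_mul, norm_pow]
      calc ‖P.coeff k‖ * ‖x‖ ^ k ≤ 1 * ‖x‖ ^ (P.natDegree - 1) :=
            mul_le_mul (hc k) (pow_le_pow_right₀ h.le (by omega)) (by positivity) zero_le_one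
        _ = ‖x‖ ^ (P.natDegree - 1) := one_mul _
    have h3 : ‖x‖ ^ P.natDegree ≤ ‖x‖ ^ (P.natDegree - 1) := by
      rw [← norm_pow, h1, norm_neg]
      exact h2
    have h4 : ‖x‖ ^ (P.natDegree - 1) < ‖x‖ ^ P.natDegree := pow_lt_pow_right₀ h (by omega)
    linarith

theorem LEV (hITR : ITR_stmt) (hDBL : DBL_stmt) (hGRD : GRD_stmt) (hPSH : PSH_stmt)
    (hCPT : CPT_stmt) : LEV_stmt := by
  intro p _ Γ K _ _ _ _ _ _ _ R G₁ κ hL m _ _ V hV h₂ hh₂ g l hchar α β hs hp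
  have := ultra p K
  have hκ := hL.pos
  set θ : ℝ := ‖∏ i, ∏ j, (α * l j - β * l i)‖ with hθ
  have hθ0 : 0 ≤ θ := norm_nonneg _
  set N := Fintype.card m ^ 2 with hN
  have hp2 : 2 ≤ p := (Fact.out : p.Prime).two_le
  have hp0 : (0 : ℝ) < p := by exact_mod_cast (Fact.out : p.Prime).pos
  rcases eq_or_lt_of_le (mul_nonneg hκ.le hθ0) with h0 | h0
  · refine ⟨1, one_mem _, map_one V, ?_⟩
    rw [← h0, zero_pow (by omega), mul_zero]
    exact nu_nonneg _
  -- the norms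
  have htr : ‖(R g).trace‖ ≤ 1 := by
    rw [Matrix.trace_fin_two]
    exact nadd (hL.int g 0 0) (hL.int g 1 1)
  have hdt : ‖(R g).det‖ ≤ 1 := (det_unit hL.int g).le
  have hα : ‖α‖ ≤ 1 := LEV_root (by rw [hs]; exact htr) (by rw [hp]; exact hdt)
  have hβ : ‖β‖ ≤ 1 := LEV_root (by rw [add_comm, hs]; exact htr) (by rw [mul_comm, hp]; exact hdt)
  have hl : ∀ i, ‖l i‖ ≤ 1 := by
    intro i
    refine LEV_int (Matrix.charpoly_monic ((V g).map (toF p K))) ?_ ?_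
    · intro k
      rw [Matrix.charpoly_map, Polynomial.coeff_map, norm_toF]
      exact PadicInt.norm_le_one _
    · rw [hchar, Polynomial.eval_prod]
      exact Finset.prod_eq_zero (Finset.mem_univ i) (by simp)
  have hθ1 : θ ≤ 1 := by
    rw [hθ, norm_prod]
    refine Finset.prod_le_one (fun _ _ => norm_nonneg _) fun i _ => ?_
    rw [norm_prod]
    refine Finset.prod_le_one (fun _ _ => norm_nonneg _) fun j _ => ?_
    refine nsub ?_ ?_
    · simpa using nmul hα (hl j)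
    · simpa using nmul hβ (hl i)
  have hη1 : κ * θ ≤ 1 := by
    calc κ * θ ≤ 1 * 1 := mul_le_mul hL.le hθ1 hθ0 zero_le_one
      _ = 1 := one_mul 1
  obtain ⟨hc1, hc2⟩ := hCPT p R G₁ κ hL V hV
  choose H hH1 hH2 using hc1
  obtain ⟨e, he1, he2, he3⟩ := hGRD p V G₁
  have hB0 : ∀ r, 0 ≤ nu (R (H r)) := fun r => nu_nonneg _
  have hITR' := hITR p (fun r => nu (R (H r))) e N (κ * θ) (⨅ r, nu (R (H r))) hp2 h0 hη1 hB0
    (fun r => nu_le_of_entry (hL.int _)) ?_ he1 he2 ?_ ?_ ?_ ?_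
  · obtain ⟨h, hh, hVh, hle⟩ := hc2 (nu (R (H 2)) / p * (κ * θ) ^ (N + 2)) (fun r =>
      ⟨H r, hH1 r, hITR'.trans (ciInf_le ⟨0, by rintro _ ⟨r, rfl⟩; exact hB0 r⟩ r)⟩)
    refine ⟨h, hh, hVh, le_trans ?_ hle⟩
    apply mul_le_mul_of_nonneg_right _ (by positivity)
    exact div_le_div_of_nonneg_right (hH2 2 h₂ hh₂) hp0.le
  · -- antitone
    intro r r' hrr
    exact hH2 r (H r') ⟨(hH1 r').1, fun i j => (pow_dvd_pow _ hrr).trans ((hH1 r').2 i j)⟩
  · -- one step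
    intro r hr
    have h1 : H r ^ p ∈ Lv V G₁ (r + 1) := by
      refine ⟨pow_mem (hH1 r).1 p, ?_⟩
      rw [map_pow]
      exact LEV_pow (by omega) (hH1 r).2
    have h2 := hH2 (r + 1) _ h1
    rw [hL.pow _ (hH1 r).1, norm_p] at h2
    show nu (R (H r)) / p ≤ nu (R (H (r + 1)))
    rw [div_eq_inv_mul]
    exact h2
  · -- doubling
    intro r hr hlt
    obtain ⟨h', hh', hle⟩ := hDBL p R G₁ κ hL V g l hchar α β hs hp r (H r) (hH1 r) hlt
    exact hle.trans (hH2 (2 * r) h' hh')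
  · -- push
    intro r t R' hr hrt htR hes
    refine hPSH p R G₁ κ hL V r t R' hr hrt htR ?_ _ _ (hH2 r) (hH2 R') (H t) (hH1 t)
    intro s hrs hsR u hu
    exact he3 r s hr hrs (hes s hrs hsR).symm u hu
  · intro b hb
    exact le_ciInf hb

end Pool.Agent.PV
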